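import Pool.Agent.Work.MP_174134_gt.Diag

/-!
No ellipsoid of Euclidean 4-space contains isometric copies of the complete flat Moebius bands of
all widths: thin bands never fit into a given ellipsoid.
-/

open scoped RealInnerProductSpace ContDiff

namespace Pool.Agent.Results.MP_174134_gt.NoUniversalEllipsoid

/-- The glide reflection `(t, v) ↦ (-t, v + a)` of the Euclidean plane, `t = p 0`, `v = p 1`. -/
def glide (a : ℝ) : Equiv.Perm (EuclideanSpace ℝ (Fin 2)) where
  toFun p := !₂[-(p 0), p 1 + a]
  invFun p := !₂[-(p 0), p 1 - a]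
  left_inv p := by ext i; fin_cases i <;> simp
  right_inv p := by ext i; fin_cases i <;> simp

/-- The flat Moebius band `M_a`: the quotient of the Euclidean plane by the group generated by
the glide reflection `(t, v) ↦ (-t, v + a)`. -/
def MoebiusBand (a : ℝ) : Type :=
  MulAction.orbitRel.Quotient (Subgroup.zpowers (glide a)) (EuclideanSpace ℝ (Fin 2))

/-- The quotient map from the Euclidean plane onto `M_a`. -/
def proj (a : ℝ) (p : EuclideanSpace ℝ (Fin 2)) : MoebiusBand a :=
  Quotient.mk (MulAction.orbitRel (Subgroup.zpowers (glide a)) (EuclideanSpace ℝ (Fin 2))) p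

/-- `f : M_a → E^4` is a smooth isometric immersion: its lift to the plane is `C^∞` and the
derivative of the lift preserves the inner product at every point. -/
structure IsIsometricImmersion {a : ℝ} (f : MoebiusBand a → EuclideanSpace ℝ (Fin 4)) : Prop where
  contDiff : ContDiff ℝ ∞ (fun p => f (proj a p))
  isometric : ∀ p w w' : EuclideanSpace ℝ (Fin 2),
    ⟪fderiv ℝ (fun p => f (proj a p)) p w, fderiv ℝ (fun p => f (proj a p)) p w'⟫ = ⟪w, w'⟫

/-- An ellipsoid of `E^4`: a set with equation `∑ y_i ^ 2 / c_i ^ 2 = 1`, all `c_i > 0`, in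
suitable Cartesian coordinates `y = g x` (`g` an isometry of `E^4` onto itself). -/
def IsEllipsoid (E : Set (EuclideanSpace ℝ (Fin 4))) : Prop :=
  ∃ (g : EuclideanSpace ℝ (Fin 4) ≃ᵢ EuclideanSpace ℝ (Fin 4)) (c : Fin 4 → ℝ),
    (∀ i, 0 < c i) ∧ E = {x | ∑ i, (g x i) ^ 2 / (c i) ^ 2 = 1}

open Pool.Agent.Work.MP_174134_gt

lemma proj_glide (a : ℝ) (p : EuclideanSpace ℝ (Fin 2)) :
    proj a (glide a p) = proj a p := by
  unfold proj
  apply Quotient.sound
  show (MulAction.orbitRel (Subgroup.zpowers (glide a)) (EuclideanSpace ℝ (Fin 2))) _ _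
  rw [MulAction.orbitRel_apply]
  exact ⟨⟨glide a, Subgroup.mem_zpowers _⟩, rfl⟩

/-- For every ellipsoid `E` of `E^4` there is `a₀ > 0` such that for `0 < a ≤ a₀` no isometric
immersion (in particular no isometric embedding) of the complete flat Moebius band `M_a` into
`E^4` has its image contained in `E`. -/
theorem result (E : Set (EuclideanSpace ℝ (Fin 4))) (hE : IsEllipsoid E) :
    ∃ a₀ : ℝ, 0 < a₀ ∧ ∀ a : ℝ, 0 < a → a ≤ a₀ →
      ¬ ∃ f : MoebiusBand a → EuclideanSpace ℝ (Fin 4),
        IsIsometricImmersion f ∧ ∀ x, f x ∈ E := by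
  obtain ⟨g', c, hc, rfl⟩ := hE
  set g : E4 ≃ᵃⁱ[ℝ] E4 := g'.toRealAffineIsometryEquiv with hgdef
  have hgg : ∀ x, g' x = g x := fun x => rfl
  set q : Fin 4 → ℝ := fun i => 1 / (c i) ^ 2 with hq
  set S : ℝ := ∑ i, (c i) ^ 2 with hS
  set hi : ℝ := ∑ i, q i with hhi
  have hqpos : ∀ i, 0 < q i := fun i => by
    have := hc i
    rw [hq]; positivity
  have hSpos : 0 < S := by
    rw [hS]
    exact Finset.sum_pos (fun i _ => by have := hc i; positivity) Finset.univ_nonempty
  have hhipos : 0 < hi := Finset.sum_pos (fun i _ => hqpos i) Finset.univ_nonempty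
  have hQ : Quad (diag q) (1 / S) hi := by
    apply quad_diag (by positivity)
    · intro i
      have h1 : (c i) ^ 2 ≤ S :=
        Finset.single_le_sum (f := fun i => (c i) ^ 2) (fun j _ => sq_nonneg _) (Finset.mem_univ i)
      have h2 := hc i
      exact one_div_le_one_div_of_le (by positivity) h1
    · intro i
      exact Finset.single_le_sum (f := q) (fun j _ => (hqpos j).le) (Finset.mem_univ i)
  refine ⟨Real.sqrt (1 / S) / (20 * hi), by positivity, ?_⟩
  rintro a ha0 ha1 ⟨f, hf, hfE⟩
  -- the immersion in adapted coordinates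
  set L := g.linearIsometryEquiv with hL
  have hg : ∀ x, g x = L x + g 0 := by
    intro x
    have := g.map_vadd 0 x
    simpa using this
  set Y : EuclideanSpace ℝ (Fin 2) → E4 := fun p => g (f (proj a p)) with hY
  have hY' : Y = fun p => L (f (proj a p)) + g 0 := by
    funext p
    rw [hY]
    exact hg _
  have hfd : Differentiable ℝ (fun p => f (proj a p)) := hf.contDiff.differentiable (by simp)
  have hIso : Iso Y := by
    constructor
    · rw [hY']
      have h3 : ContDiff ℝ 3 (fun p => f (proj a p)) := hf.contDiff.of_le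
        (WithTop.coe_le_coe.mpr (le_top : (3 : ℕ∞) ≤ ⊤))
      exact (L.toContinuousLinearEquiv.contDiff.comp h3).add contDiff_const
    · intro p w
      have h1 : HasFDerivAt Y ((L.toContinuousLinearEquiv : E4 →L[ℝ] E4).comp
          (fderiv ℝ (fun p => f (proj a p)) p)) p := by
        rw [hY']
        exact ((L.toContinuousLinearEquiv.hasFDerivAt).comp p (hfd p).hasFDerivAt).add_const _
      rw [h1.fderiv]
      show ‖L (fderiv ℝ (fun p => f (proj a p)) p w)‖ = ‖w‖
      rw [L.norm_map]
      have h2 := hf.isometric p w w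
      rw [real_inner_self_eq_norm_sq, real_inner_self_eq_norm_sq] at h2
      exact (sq_eq_sq₀ (norm_nonneg _) (norm_nonneg _)).mp h2
  have hOn : OnE Y (diag q) := by
    intro p
    rw [inner_diag]
    have h1 : ∑ i, (g' (f (proj a p)) i) ^ 2 / (c i) ^ 2 = 1 := hfE (proj a p)
    rw [hgg] at h1
    rw [← h1]
    apply Finset.sum_congr rfl
    intro i _
    rw [hq]
    show 1 / c i ^ 2 * (g (f (proj a p)) i * g (f (proj a p)) i) = _
    ring
  have hInv : Inv Y a := by
    intro t v
    have h1 := proj_glide a !₂[t, v]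
    show g (f (proj a !₂[-t, v + a])) = g (f (proj a !₂[t, v]))
    rw [← h1]
    rfl
  refine core (R := 4 * a) hIso hQ hOn ha0 hInv le_rfl ?_
  have h1 : a ^ 2 ≤ (Real.sqrt (1 / S) / (20 * hi)) ^ 2 := pow_le_pow_left₀ ha0.le ha1 2
  rw [div_pow, Real.sq_sqrt (by positivity), le_div_iff₀ (by positivity)] at h1
  nlinarith

end Pool.Agent.Results.MP_174134_gt.NoUniversalEllipsoid
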